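import Mathlib
import Pool.Agent.W11.Hahn.Reduce

set_option autoImplicit false

/-! Hahn's question on finite partitions of the positive integers and Egyptian fractions:
some single class of every finite partition represents every positive rational. -/

namespace Pool.Agent.Results.MP_54bae5_nt.OneClassSuffices

/-- `q` is representable by `A`: it is the sum of the reciprocals of the elements of a finite
nonempty subset of `A`. -/
def Representable (A : Set ℕ) (q : ℚ) : Prop :=
  ∃ F : Finset ℕ, F.Nonempty ∧ (∀ a ∈ F, a ∈ A) ∧ ∑ a ∈ F, (1 : ℚ) / (a : ℚ) = q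

/-- The sets `C 0, …, C (k - 1)` form a partition of the set of positive integers. -/
structure IsPartition {k : ℕ} (C : Fin k → Set ℕ) : Prop where
  cover : ∀ n : ℕ, (0 < n ↔ ∃ i, n ∈ C i)
  disj : ∀ i j, i ≠ j → Disjoint (C i) (C j)

/-- A partition is `s`-good if at most `s` of its classes suffice to represent every positive
rational (the class may depend on the rational). -/
def Good {k : ℕ} (C : Fin k → Set ℕ) (s : ℕ) : Prop :=
  ∃ I : Finset (Fin k), I.card ≤ s ∧ ∀ q : ℚ, 0 < q → ∃ i ∈ I, Representable (C i) q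

/-- `s` is admissible if every finite partition of the positive integers is `s`-good. -/
def Admissible (s : ℕ) : Prop :=
  ∀ (k : ℕ), 1 ≤ k → ∀ C : Fin k → Set ℕ, IsPartition C → Good C s

theorem one_class (k : ℕ) (hk : 1 ≤ k) (C : Fin k → Set ℕ) (hC : IsPartition C) :
    ∃ i, ∀ q : ℚ, 0 < q → Representable (C i) q := by
  classical
  set c : ℕ → Fin k := fun n => if h : ∃ i, n ∈ C i then h.choose else ⟨0, hk⟩ with hc
  obtain ⟨i, hi⟩ := Pool.Agent.W11.Hahn.one_colour hk c
  refine ⟨i, fun q hq => ?_⟩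
  obtain ⟨F, hF1, hF2, hF3⟩ := hi q hq
  refine ⟨F, hF1, fun a ha => ?_, hF3⟩
  obtain ⟨ha0, hac⟩ := hF2 a ha
  have hex : ∃ i, a ∈ C i := (hC.cover a).1 ha0
  have h1 : c a = hex.choose := by
    rw [hc]; simp only [hex, dif_pos]
  rw [← hac, h1]
  exact hex.choose_spec

/-- For every finite partition of the positive integers some single class represents every
positive rational; so exactly the `s ≥ 1` are admissible. -/
theorem result :
    (∀ (k : ℕ), 1 ≤ k → ∀ C : Fin k → Set ℕ, IsPartition C →
      ∃ i, ∀ q : ℚ, 0 < q → Representable (C i) q) ∧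
    (∀ s : ℕ, Admissible s ↔ 1 ≤ s) := by
  refine ⟨fun k hk C hC => one_class k hk C hC, fun s => ⟨fun h => ?_, fun hs k hk C hC => ?_⟩⟩
  · by_contra hcon
    have hs : s = 0 := by omega
    subst hs
    obtain ⟨I, hI, hI2⟩ := h 1 le_rfl (fun _ => {n : ℕ | 0 < n})
      ⟨fun n => ⟨fun hn => ⟨0, hn⟩, fun ⟨_, hn⟩ => hn⟩, fun i j hij => absurd (Subsingleton.elim i j) hij⟩
    obtain ⟨i, hi, _⟩ := hI2 1 one_pos
    have : 0 < I.card := Finset.card_pos.2 ⟨i, hi⟩
    omega
  · obtain ⟨i, hi⟩ := one_class k hk C hC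
    exact ⟨{i}, by rw [Finset.card_singleton]; exact hs, fun q hq =>
      ⟨i, Finset.mem_singleton_self i, hi q hq⟩⟩

end Pool.Agent.Results.MP_54bae5_nt.OneClassSuffices
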